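import Pool.Agent.K7.H81.RT.Stm

set_option autoImplicit false

noncomputable section

namespace Pool.Agent.K7.H81.RT

open Set

/-- two dangerous centres with the same multiplier cannot hit two different digits -/
theorem bad_pair (U lam : ℝ) (k k' : ℕ) (p p' : ℤ) (x x' : ℝ) (hU : 0 < U) (hl : 1 ≤ lam)
    (hk : 1 ≤ k) (hk' : 1 ≤ k') (h1 : 6 * lam * (k : ℝ) ^ 2 ≤ U) (h1' : 6 * lam * (k' : ℝ) ^ 2 ≤ U)
    (h2 : U < 30 * (lam * (k : ℝ) ^ 2)) (h2' : U < 30 * (lam * (k' : ℝ) ^ 2))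
    (h3 : (k : ℝ) * |lam * k * (x / U) - p| < 1 / 60)
    (h3' : (k' : ℝ) * |lam * k' * (x' / U) - p'| < 1 / 60)
    (hx : 1 ≤ x' - x) (hx' : x' - x ≤ 5) : False := by
  have hk0 : (0 : ℝ) < k := by exact_mod_cast hk
  have hk0' : (0 : ℝ) < k' := by exact_mod_cast hk'
  have hl0 : 0 < lam := by linarith
  -- distance of x from the centre
  have key : ∀ (κ : ℝ) (P : ℤ) (y : ℝ), 0 < κ → U < 30 * (lam * κ ^ 2) →
      κ * |lam * κ * (y / U) - P| < 1 / 60 → |y - U * P / (lam * κ)| < 1 / 2 := by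
    intro κ P y hκ hb hc
    have e1 : y - U * P / (lam * κ) = (lam * κ * (y / U) - P) * (U / (lam * κ)) := by
      field_simp
    rw [e1, abs_mul, abs_of_pos (by positivity : 0 < U / (lam * κ))]
    have e2 : |lam * κ * (y / U) - P| * (U / (lam * κ)) =
        (κ * |lam * κ * (y / U) - P|) * (U / (lam * κ ^ 2)) := by
      field_simp
    rw [e2]
    have e3 : U / (lam * κ ^ 2) < 30 := by
      rw [div_lt_iff₀ (by positivity)]; exact hb
    have e4 : 0 < U / (lam * κ ^ 2) := by positivity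
    have e5 : 0 ≤ κ * |lam * κ * (y / U) - P| := by positivity
    calc (κ * |lam * κ * (y / U) - P|) * (U / (lam * κ ^ 2))
        ≤ (κ * |lam * κ * (y / U) - P|) * 30 := mul_le_mul_of_nonneg_left e3.le e5
      _ < 1 / 2 := by linarith
  have a1 := key k p x hk0 h2 h3
  have a2 := key k' p' x' hk0' h2' h3'
  rw [abs_lt] at a1 a2
  by_cases hc : p * (k' : ℤ) = p' * (k : ℤ)
  · have hcr : (p : ℝ) * k' = p' * k := by exact_mod_cast hc
    have : U * p / (lam * k) = U * p' / (lam * k') := by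
      rw [div_eq_div_iff (by positivity) (by positivity)]
      have : U * p * (lam * k') = U * lam * (p * k') := by ring
      rw [this, hcr]; ring
    rw [← this] at a2
    linarith [a1.1, a1.2, a2.1, a2.2]
  · have hc1 : 1 ≤ |p * (k' : ℤ) - p' * (k : ℤ)| := Int.one_le_abs (sub_ne_zero.2 hc)
    have hc2 : (1 : ℝ) ≤ |(p : ℝ) * k' - p' * k| := by exact_mod_cast hc1
    have e1 : U * p / (lam * k) - U * p' / (lam * k') = (p * k' - p' * k) * (U / (lam * k * k')) := by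
      field_simp
    have e2 : 6 ≤ U / (lam * k * k') := by
      rw [le_div_iff₀ (by positivity)]
      have h := mul_nonneg hl0.le (sq_nonneg ((k : ℝ) - k'))
      have h' : lam * ((k : ℝ) - k') ^ 2 =
          lam * (k : ℝ) ^ 2 - 2 * (lam * k * k') + lam * (k' : ℝ) ^ 2 := by ring
      rw [h'] at h
      linarith
    have e3 : 6 ≤ |U * p / (lam * k) - U * p' / (lam * k')| := by
      rw [e1, abs_mul, abs_of_pos (by positivity : 0 < U / (lam * k * k'))]
      calc (6 : ℝ) ≤ 1 * (U / (lam * k * k')) := by linarith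
        _ ≤ _ := mul_le_mul_of_nonneg_right hc2 (by positivity)
    have e4 : |U * p / (lam * k) - U * p' / (lam * k')| < 6 := by
      rw [abs_lt]
      constructor <;> linarith [a1.1, a1.2, a2.1, a2.2]
    linarith

/-- the interval `N` of the level `n` avoids the dangerous zones of its level -/
def GoodI (e n : ℕ) (N : ℤ) : Prop := ∀ lam : ℝ, (lam = 1 ∨ lam = e) → ∀ k : ℕ, 1 ≤ k → ∀ p : ℤ,
  6 * lam * (k : ℝ) ^ 2 ≤ 5 ^ n → ∀ x : ℝ, (N : ℝ) ≤ x → x ≤ N + 1 →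
    1 / 60 ≤ (k : ℝ) * |lam * k * (x / 5 ^ n) - p|

theorem good_zero (e : ℕ) (he : 1 ≤ e) : GoodI e 0 0 := by
  intro lam hlam k hk p h
  exfalso
  have hl : 1 ≤ lam := by
    rcases hlam with h | h
    · rw [h]
    · rw [h]; exact_mod_cast he
  have hk1 : (1 : ℝ) ≤ k := by exact_mod_cast hk
  have : (1 : ℝ) ≤ (k : ℝ) ^ 2 := by nlinarith
  norm_num at h
  nlinarith

theorem good_step (e n : ℕ) (he : 1 ≤ e) (N : ℤ) (h : GoodI e n N) :
    ∃ t : ℤ, 0 ≤ t ∧ t ≤ 4 ∧ GoodI e (n + 1) (5 * N + t) := by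
  by_contra hcon
  push Not at hcon
  have he1 : (1 : ℝ) ≤ e := by exact_mod_cast he
  -- data of a hit digit
  have hit : ∀ t : ℤ, 0 ≤ t → t ≤ 4 → ∃ lam : ℝ, (lam = 1 ∨ lam = e) ∧ ∃ (k : ℕ) (p : ℤ) (x : ℝ),
      1 ≤ k ∧ 6 * lam * (k : ℝ) ^ 2 ≤ 5 ^ (n + 1) ∧ (5 : ℝ) ^ (n + 1) < 30 * (lam * (k : ℝ) ^ 2) ∧
      (k : ℝ) * |lam * k * (x / 5 ^ (n + 1)) - p| < 1 / 60 ∧ (5 * N + t : ℝ) ≤ x ∧
      x ≤ 5 * N + t + 1 := by
    intro t ht0 ht4
    have := hcon t ht0 ht4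
    unfold GoodI at this
    push Not at this
    obtain ⟨lam, hlam, k, hk, p, h1, x, hx1, hx2, h2⟩ := this
    push_cast at hx1 hx2
    refine ⟨lam, hlam, k, p, x, hk, h1, ?_, h2, hx1, hx2⟩
    by_contra hlt
    push Not at hlt
    have ht0' : (0 : ℝ) ≤ t := by exact_mod_cast ht0
    have ht4' : (t : ℝ) ≤ 4 := by exact_mod_cast ht4
    have h6 : 6 * lam * (k : ℝ) ^ 2 ≤ 5 ^ n := by
      rw [pow_succ (5 : ℝ) n] at hlt; linarith
    have := h lam hlam k hk p h6 (x / 5) (by linarith) (by linarith)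
    have e1 : x / 5 / 5 ^ n = x / 5 ^ (n + 1) := by
      rw [pow_succ (5 : ℝ) n, div_div, mul_comm]
    rw [e1] at this
    linarith
  have final : ∀ t t' : ℤ, 0 ≤ t → t + 2 ≤ t' → t' ≤ 4 → ∀ lam : ℝ, (lam = 1 ∨ lam = e) →
      (∃ (k : ℕ) (p : ℤ) (x : ℝ),
      1 ≤ k ∧ 6 * lam * (k : ℝ) ^ 2 ≤ 5 ^ (n + 1) ∧ (5 : ℝ) ^ (n + 1) < 30 * (lam * (k : ℝ) ^ 2) ∧
      (k : ℝ) * |lam * k * (x / 5 ^ (n + 1)) - p| < 1 / 60 ∧ (5 * N + t : ℝ) ≤ x ∧
      x ≤ 5 * N + t + 1) →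
      (∃ (k : ℕ) (p : ℤ) (x : ℝ),
      1 ≤ k ∧ 6 * lam * (k : ℝ) ^ 2 ≤ 5 ^ (n + 1) ∧ (5 : ℝ) ^ (n + 1) < 30 * (lam * (k : ℝ) ^ 2) ∧
      (k : ℝ) * |lam * k * (x / 5 ^ (n + 1)) - p| < 1 / 60 ∧ (5 * N + t' : ℝ) ≤ x ∧
      x ≤ 5 * N + t' + 1) → False := by
    rintro t t' h0 htt h4 lam hlam ⟨k, p, x, hk, h1, h2, h3, hx1, hx2⟩
      ⟨k', p', x', hk', h1', h2', h3', hx1', hx2'⟩
    have hl : 1 ≤ lam := by
      rcases hlam with h | h
      · rw [h]
      · rw [h]; exact he1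
    have e0 : (0 : ℝ) ≤ t := by exact_mod_cast h0
    have e1 : (t : ℝ) + 2 ≤ t' := by exact_mod_cast htt
    have e2 : (t' : ℝ) ≤ 4 := by exact_mod_cast h4
    exact bad_pair (5 ^ (n + 1)) lam k k' p p' x x' (by positivity) hl hk hk' h1 h1' h2 h2' h3 h3'
      (by linarith) (by linarith)
  obtain ⟨l0, hl0, d0⟩ := hit 0 (by norm_num) (by norm_num)
  obtain ⟨l2, hl2, d2⟩ := hit 2 (by norm_num) (by norm_num)
  obtain ⟨l4, hl4, d4⟩ := hit 4 (by norm_num) (by norm_num)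
  by_cases h02 : l0 = l2
  · subst h02; exact final 0 2 (by norm_num) (by norm_num) (by norm_num) l0 hl0 d0 d2
  by_cases h04 : l0 = l4
  · subst h04; exact final 0 4 (by norm_num) (by norm_num) (by norm_num) l0 hl0 d0 d4
  have h24 : l2 = l4 := by
    rcases hl0 with a | a <;> rcases hl2 with b | b <;> rcases hl4 with c | c <;> simp_all
  subst h24; exact final 2 4 (by norm_num) (by norm_num) (by norm_num) l2 hl2 d2 d4

theorem stBad : StBad := by
  intro e he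
  choose! t ht0 ht4 ht using fun n N => good_step e n he N
  obtain ⟨N, hN0, hstep⟩ : ∃ N : ℕ → ℤ, N 0 = 0 ∧ ∀ n, N (n + 1) = 5 * N n + t n (N n) :=
    ⟨fun n => Nat.rec 0 (fun m M => 5 * M + t m M) n, rfl, fun n => rfl⟩
  have hN : ∀ n, GoodI e n (N n) := by
    intro n
    induction n with
    | zero => rw [hN0]; exact good_zero e he
    | succ m ih => rw [hstep]; exact ht m (N m) ih
  let f : ℕ → ℝ := fun n => (N n : ℝ) / 5 ^ n
  let g : ℕ → ℝ := fun n => ((N n : ℝ) + 1) / 5 ^ n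
  have hanti : Antitone fun n => Icc (f n) (g n) := by
    apply antitone_nat_of_succ_le
    intro n
    have e0 : (0 : ℝ) ≤ t n (N n) := by exact_mod_cast ht0 n (N n) (hN n)
    have e4 : (t n (N n) : ℝ) ≤ 4 := by exact_mod_cast ht4 n (N n) (hN n)
    have e5 : (N (n + 1) : ℝ) = 5 * N n + t n (N n) := by rw [hstep]; push_cast; ring
    have hp : (0 : ℝ) < 5 ^ n := by positivity
    apply Icc_subset_Icc
    · show (N n : ℝ) / 5 ^ n ≤ (N (n + 1) : ℝ) / 5 ^ (n + 1)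
      rw [e5, pow_succ, div_le_div_iff₀ hp (by positivity)]
      have := mul_nonneg e0 hp.le
      linarith
    · show ((N (n + 1) : ℝ) + 1) / 5 ^ (n + 1) ≤ ((N n : ℝ) + 1) / 5 ^ n
      rw [e5, pow_succ, div_le_div_iff₀ (by positivity) hp]
      have := mul_le_mul_of_nonneg_right e4 hp.le
      linarith
  have hle : ∀ n, f n ≤ g n := by
    intro n
    show (N n : ℝ) / 5 ^ n ≤ ((N n : ℝ) + 1) / 5 ^ n
    gcongr
    linarith
  have hmem := ciSup_mem_iInter_Icc_of_antitone_Icc hanti hle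
  set α : ℝ := ⨆ n, f n with hα
  rw [mem_iInter] at hmem
  have hbad : ∀ lam : ℝ, (lam = 1 ∨ lam = e) → Bad (1 / 60) (lam * α) := by
    intro lam hlam k hk p
    have hk0 : (0 : ℝ) < k := by exact_mod_cast hk
    obtain ⟨n, hn⟩ := pow_unbounded_of_one_lt (6 * lam * (k : ℝ) ^ 2) (by norm_num : (1 : ℝ) < 5)
    have hp : (0 : ℝ) < 5 ^ n := by positivity
    have hm := hmem n
    have h1 : (N n : ℝ) ≤ α * 5 ^ n := by
      have := hm.1
      change (N n : ℝ) / 5 ^ n ≤ α at this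
      rwa [div_le_iff₀ hp] at this
    have h2 : α * 5 ^ n ≤ N n + 1 := by
      have := hm.2
      change α ≤ ((N n : ℝ) + 1) / 5 ^ n at this
      rwa [le_div_iff₀ hp] at this
    have := hN n lam hlam k hk p hn.le (α * 5 ^ n) h1 h2
    rw [mul_div_assoc, div_self hp.ne', mul_one] at this
    rw [div_le_iff₀ hk0]
    calc (1 / 60 : ℝ) ≤ k * |lam * k * α - p| := this
      _ = |k * (lam * α) - p| * k := by
          rw [mul_comm]; congr 2; ring
  have hb1 := hbad 1 (Or.inl rfl)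
  rw [one_mul] at hb1
  have hm := hmem 0
  have g0 : 0 ≤ α := by
    have := hm.1
    change ((N 0 : ℤ) : ℝ) / 5 ^ 0 ≤ α at this
    rw [hN0] at this; simpa using this
  have g1 : α ≤ 1 := by
    have := hm.2
    change α ≤ (((N 0 : ℤ) : ℝ) + 1) / 5 ^ 0 at this
    rw [hN0] at this; simpa using this
  refine ⟨α, ?_, ?_, hb1, hbad e (Or.inr rfl)⟩
  · rcases g0.lt_or_eq with h | h
    · exact h
    · exfalso
      have := hb1 1 le_rfl 0
      rw [← h] at this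
      norm_num at this
  · rcases g1.lt_or_eq with h | h
    · exact h
    · exfalso
      have := hb1 1 le_rfl 1
      rw [h] at this
      norm_num at this

end Pool.Agent.K7.H81.RT
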