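import Pool.Agent.K7.H81.RT.Stm

/-! # Project RT: assembly -/

set_option autoImplicit false

noncomputable section

namespace Pool.Agent.K7.H81.RT

theorem expFrom_anti {A : Type} (u : ℕ → A) (n : ℕ) : expFrom n u ≤ critExp u := by
  refine iSup_le fun q => iSup_le fun l => iSup_le fun h => ?_
  exact le_iSup_of_le q (le_iSup_of_le l (le_iSup_of_le ⟨h.1, Nat.zero_le _, h.2.2⟩ le_rfl))

theorem asyExp_le {A : Type} (u : ℕ → A) : asyExp u ≤ critExp u := by
  unfold asyExp
  split_ifs with h
  · rw [h]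
  · exact (iInf_le _ 0).trans le_rfl

theorem rot_iter (α : ℝ) (n : ℕ) : (fun x => Int.fract (x + α))^[n] 0 = Int.fract (n * α) := by
  induction n with
  | zero => simp
  | succ n ih =>
    rw [Function.iterate_succ_apply', ih]
    have : Int.fract ((n : ℝ) * α) + α = ((n + 1 : ℕ) : ℝ) * α - ⌊(n : ℝ) * α⌋ := by
      rw [Int.fract]
      push_cast
      ring
    rw [this, Int.fract_sub_intCast]

theorem exists_letter {e : ℕ} {a : Fin (e + 2) → ℝ} (h0 : a 0 = 0) (h1 : a (Fin.last (e + 1)) = 1)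
    {y : ℝ} (hy0 : 0 ≤ y) (hy1 : y < 1) :
    ∃ j : Fin (e + 1), a j.castSucc ≤ y ∧ y < a j.succ := by
  by_contra hno
  push Not at hno
  have : ∀ i : Fin (e + 2), a i ≤ y := by
    intro i
    induction i using Fin.induction with
    | zero => rw [h0]; exact hy0
    | succ j ih => exact hno j ih
  have := this (Fin.last (e + 1))
  rw [h1] at this
  linarith

theorem bad_irrational {c θ : ℝ} (hc : 0 < c) (h : Bad c θ) : Irrational θ := by
  rintro ⟨r, rfl⟩
  have h1 := h r.den r.den_pos r.num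
  have h2 : (r.den : ℝ) * (r : ℝ) - r.num = 0 := by
    have h3 : (r : ℝ) = r.num / r.den := by exact_mod_cast (Rat.num_div_den r).symm
    have h4 : (r.den : ℝ) ≠ 0 := by exact_mod_cast r.den_nz
    rw [h3]
    field_simp
    ring
  rw [h2, abs_zero] at h1
  have h3 : (0 : ℝ) < r.den := by exact_mod_cast r.den_pos
  have := div_pos hc h3
  linarith

theorem stFin : StFin := by
  intro hB hD hR hU hP hL d hd
  refine ⟨?_, ?_, ?_⟩
  · exact le_iInf₂ fun u hu => hL d u (by omega) (hP d u (by omega) hu)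
  · exact le_iInf₂ fun u hu => (iInf₂_le u hu).trans (asyExp_le u)
  · obtain ⟨e, rfl⟩ : ∃ e, d = e + 1 := ⟨d - 1, by omega⟩
    obtain ⟨α, h0, h1, b1, b2⟩ := hB e (by omega)
    obtain ⟨a, π, hI, hs⟩ := hR e α (by omega) h0 h1 (bad_irrational (by norm_num) b1)
    have hex : ∀ n : ℕ, ∃ j : Fin (e + 1), a j.castSucc ≤ Int.fract ((n : ℝ) * α) ∧
        Int.fract ((n : ℝ) * α) < a j.succ := fun n =>
      exists_letter hI.zero hI.one (Int.fract_nonneg _) (Int.fract_lt_one _)
    choose u hu using hex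
    choose s hs using hs
    have hc : IsCoding (e + 1) u := by
      refine ⟨a, π, _, 0, hI, le_rfl, one_pos, fun n => ?_⟩
      rw [rot_iter]
      exact hu n
    have hup := hU hD e α (1 / 60) (Fin (e + 1)) u s (by omega) (by norm_num) (by norm_num) b1 b2
      (fun n => ⟨(hs (u n)).1.trans (hu n).1, (hu n).2.trans_le (hs (u n)).2⟩)
    refine (iInf₂_le u hc).trans (hup.trans (ENNReal.ofReal_le_ofReal ?_))
    have he : (0 : ℝ) < e := by
      have : 0 < e := by omega
      exact_mod_cast this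
    push_cast
    have : (1 / (1 / 60 : ℝ) + 2) / (1 / 60 * (e : ℝ)) = 3720 / e := by
      field_simp
      norm_num
    rw [this]
    have h2 : (e : ℝ) + 1 - 1 = e := by ring
    rw [h2]

end Pool.Agent.K7.H81.RT
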