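import Mathlib

/-!
# Repetition thresholds of codings of interval exchanges (MP_b68e99_co): definitions and jobs (RT)

Theorem: `1 + 1 / (d - 1) ≤ RT*(I_d) ≤ RT(I_d) ≤ 1 + 3720 / (d - 1)` for all `d ≥ 3`.
-/

set_option autoImplicit false

noncomputable section

namespace Pool.Agent.K7.H81.RT

/-- A factor of `u` of length `l` is the prefix of length `l` of `v v v ...` for a word `v` of
length `q`; its exponent is `l / q`. -/
def HasPower {A : Type} (u : ℕ → A) (q l : ℕ) : Prop :=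
  ∃ (i : ℕ) (v : ℕ → A), ∀ k < l, u (i + k) = v (k % q)

/-- the supremum of the exponents of the factors `v ^ e` with `|v| ≥ n`, `v` nonempty -/
def expFrom {A : Type} (n : ℕ) (u : ℕ → A) : ENNReal :=
  ⨆ (q : ℕ) (l : ℕ) (_ : 1 ≤ q ∧ n ≤ q ∧ HasPower u q l), (l : ENNReal) / q

/-- the critical exponent -/
def critExp {A : Type} (u : ℕ → A) : ENNReal := expFrom 0 u

open Classical in
/-- the asymptotic critical exponent (the suprema decrease with `n`, their limit is the infimum) -/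
def asyExp {A : Type} (u : ℕ → A) : ENNReal := if critExp u = ⊤ then ⊤ else ⨅ n, expFrom n u

/-- `T` is the exchange of the `d` intervals `[a j, a (j + 1))` of `[0, 1)` with the irreducible
permutation `π` (the image of the interval `j` is the `π j`-th one from the left), and it satisfies
Keane's condition: the orbits of the interior cut points are infinite and pairwise disjoint. -/
structure IsIET (d : ℕ) (a : Fin (d + 1) → ℝ) (π : Equiv.Perm (Fin d)) (T : ℝ → ℝ) : Prop where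
  zero : a 0 = 0
  one : a (Fin.last d) = 1
  mono : StrictMono a
  trans : ∀ j : Fin d, ∃ τ : ℝ, ∀ y, a j.castSucc ≤ y → y < a j.succ → T y = y + τ
  bij : Set.BijOn T (Set.Ico 0 1) (Set.Ico 0 1)
  order : ∀ j k : Fin d, π j < π k → ∀ y z, a j.castSucc ≤ y → y < a j.succ →
    a k.castSucc ≤ z → z < a k.succ → T y < T z
  irred : ∀ k : ℕ, 1 ≤ k → k < d → ∃ j : Fin d, (j : ℕ) < k ∧ k ≤ (π j : ℕ)
  idoc : ∀ i k : Fin (d + 1), i ≠ 0 → i ≠ Fin.last d → k ≠ 0 → k ≠ Fin.last d → ∀ m n : ℕ,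
    T^[m] (a i) = T^[n] (a k) → i = k ∧ m = n

/-- `u` is the coding of a point `x` of `[0, 1)` under an exchange of `d` intervals -/
def IsCoding (d : ℕ) (u : ℕ → Fin d) : Prop :=
  ∃ (a : Fin (d + 1) → ℝ) (π : Equiv.Perm (Fin d)) (T : ℝ → ℝ) (x : ℝ), IsIET d a π T ∧
    0 ≤ x ∧ x < 1 ∧ ∀ n, a (u n).castSucc ≤ T^[n] x ∧ T^[n] x < a (u n).succ

/-- the repetition threshold of the codings of exchanges of `d` intervals -/
def RT (d : ℕ) : ENNReal := ⨅ (u : ℕ → Fin d) (_ : IsCoding d u), critExp u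

/-- the asymptotic repetition threshold -/
def RTs (d : ℕ) : ENNReal := ⨅ (u : ℕ → Fin d) (_ : IsCoding d u), asyExp u

/-- the final theorem -/
def StFinal : Prop := ∀ d : ℕ, 3 ≤ d →
  ENNReal.ofReal (1 + 1 / ((d : ℝ) - 1)) ≤ RTs d ∧ RTs d ≤ RT d ∧
    RT d ≤ ENNReal.ofReal (1 + 3720 / ((d : ℝ) - 1))

/-- `θ` is badly approximable with the constant `c` -/
def Bad (c θ : ℝ) : Prop := ∀ k : ℕ, 1 ≤ k → ∀ p : ℤ, c / k ≤ |k * θ - p|

/-- JOB BAD: there is `α` in `(0, 1)` such that `α` and `e α` are badly approximable -/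
def StBad : Prop := ∀ e : ℕ, 1 ≤ e → ∃ α : ℝ, 0 < α ∧ α < 1 ∧ Bad (1 / 60) α ∧ Bad (1 / 60) (e * α)

/-- JOB DENS: the first `L` points of an orbit of the rotation by `θ` do not avoid long intervals -/
def StDens : Prop := ∀ (c θ y w η : ℝ) (L : ℕ), 0 < c → Bad c θ → 0 < η → 1 ≤ L →
  (∀ k < L, ∀ p : ℤ, ¬ (w ≤ y + k * θ - p ∧ y + k * θ - p < w + η)) → (L + 1) * η < 1 / c + 2

/-- JOB ROT: the rotation by `α`, with the cut points `j / e` and `1 - α`, as an exchange of `e + 1`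
intervals; every interval is contained in an interval `[s / e, (s + 1) / e)` -/
def StRot : Prop := ∀ (e : ℕ) (α : ℝ), 1 ≤ e → 0 < α → α < 1 → Irrational α →
  ∃ (a : Fin (e + 2) → ℝ) (π : Equiv.Perm (Fin (e + 1))),
    IsIET (e + 1) a π (fun x => Int.fract (x + α)) ∧
    ∀ j : Fin (e + 1), ∃ s : ℤ, (s : ℝ) / e ≤ a j.castSucc ∧ a j.succ ≤ ((s : ℝ) + 1) / e

/-- JOB UPP: powers in the coding of a rotation (may be used with `StDens`): `u n` is a letter, the
letter determines the interval `[s / e, (s + 1) / e)` of `fract (n α)` -/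
def StUpp : Prop := StDens → ∀ (e : ℕ) (α c : ℝ) (A : Type) (u : ℕ → A) (s : A → ℤ), 2 ≤ e →
  0 < c → c ≤ 1 → Bad c α → Bad c (e * α) →
  (∀ n : ℕ, (s (u n) : ℝ) / e ≤ Int.fract (n * α) ∧ Int.fract (n * α) < ((s (u n) : ℝ) + 1) / e) →
  critExp u ≤ ENNReal.ofReal (1 + (1 / c + 2) / (c * e))

/-- JOB PIG: the pigeonhole argument (at most `(d - 1) n + 1` factors of length `n`) -/
def StPig : Prop := ∀ (d : ℕ) (u : ℕ → Fin d), 2 ≤ d → IsCoding d u → ∀ n : ℕ,
  ∃ i j : ℕ, i < j ∧ j ≤ (d - 1) * n + 1 ∧ ∀ k < n, u (i + k) = u (j + k)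

/-- JOB LOW: the lower bound for the asymptotic critical exponent -/
def StLow : Prop := ∀ (d : ℕ) (u : ℕ → Fin d), 2 ≤ d →
  (∀ n : ℕ, ∃ i j : ℕ, i < j ∧ j ≤ (d - 1) * n + 1 ∧ ∀ k < n, u (i + k) = u (j + k)) →
  ENNReal.ofReal (1 + 1 / ((d : ℝ) - 1)) ≤ asyExp u

/-- JOB FIN (helper81) -/
def StFin : Prop := StBad → StDens → StRot → StUpp → StPig → StLow → StFinal

end Pool.Agent.K7.H81.RT
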